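import Pool.Agent.Helper29.BE.Cor

/-!
# Decompositions `n = k + m` with `6 k - 1` prime and even shifts of `6 k - 1` and `p_m`

The problem asks, for every `n > 2`, for a decomposition `n = k + m` such that `6 k - 1`,
`6 k - 1 + 2`, `p_m` and `p_m + 2` are prime. Here the two shifts are other even numbers: for EVERY
large `n` and all `H ≥ n ^ 34` with `(log H)² ≤ #{k ≤ n - 2 : 6 k - 1 prime}`, at least
`c H² / (log log n)²` of the pairs of even numbers `h, h' ≤ H` have a decomposition `n = k + m` for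
which `6 k - 1`, `6 k - 1 + h`, `p_m` and `p_m + h'` are all prime. More generally `k` can be restricted
to an arbitrary set `A` of at least `(log H) ^ r` integers (for instance to a set of `k` such that
`6 k - 1` and `6 k + 1` are both prime, if there are so many of them), and one `k` serves `r` shifts of
`6 k - 1` and `p_m` at once.

The proof is the second moment method, with the sharp form of the upper bound sieve for prime pairs
and the moments of the singular factor over differences of the starting library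
(`Pool.Agent.H197R2.PG`), in a form for vectors of shifts and arbitrary sets of vectors
(`Pool.Agent.Helper29.BE.main`).
-/

set_option autoImplicit false

open Finset Filter Topology

namespace Pool.Agent.Results.MP_ea8352_nt.ShiftedDecompositions

/-- The `j`-th prime: `p 1 = 2`, `p 2 = 3`, `p 3 = 5`, and so on. -/
noncomputable def p (j : ℕ) : ℕ := Nat.nth Nat.Prime (j - 1)

/-- For `b = true`: the number `a + h` is prime. For `b = false`: the number `h - a` is positive and
prime. -/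
def PrimeShift (b : Bool) (a h : ℕ) : Prop :=
  if b = true then (a + h).Prime else (a < h ∧ (h - a).Prime)

/-- The `r`-tuples of even numbers `1 ≤ h j ≤ H` such that for some `k` in `A` all the numbers
`a + h j` (for `s j = true`) and `h j - a` (for `s j = false`) are prime, where `a` is `6 k - 1` if
`τ j = true` and `p_m`, `m = n - k`, if `τ j = false`. -/
def shifts {r : ℕ} (τ s : Fin r → Bool) (A : Finset ℕ) (n H : ℕ) : Set (Fin r → ℕ) :=
  {h | (∀ j, 1 ≤ h j ∧ h j ≤ H ∧ Even (h j)) ∧ ∃ k ∈ A,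
    ∀ j, PrimeShift (s j) (if τ j = true then 6 * k - 1 else p (n - k)) (h j)}

open Pool.Agent.Helper29.BE in
/-- (1) For every `r ≥ 1` there are `c > 0` and `n₀` such that for all `n ≥ n₀`, all `H ≥ n ^ 34`, all
sets `A` of at least `(log H) ^ r` integers `1 ≤ k ≤ n - 2`, all types `τ` and all signs `s`: for at
least `c H ^ r / (log log n) ^ r` of the `r`-tuples of even numbers `h_j ≤ H` there is `k` in `A` such
that, with `m = n - k`, all the numbers `a_j + h_j` (or `h_j - a_j`) are prime, where `a_j` is `6 k - 1`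
or `p_m` according to `τ`.

(2) There are `c > 0` and `n₀` such that for all `n ≥ n₀` and all `H ≥ n ^ 34` with
`(log H)² ≤ #{1 ≤ k ≤ n - 2 : 6 k - 1 prime}`: for at least `c H² / (log log n)²` of the pairs
`(h_0, h_1)` of even numbers up to `H` there are `k, m ≥ 1` with `k + m = n` such that `6 k - 1`,
`6 k - 1 + h_0` and `p_m + h_1` are prime. -/
theorem result : (∀ r : ℕ, 1 ≤ r → ∃ c : ℝ, 0 < c ∧ ∃ n₀ : ℕ, ∀ n : ℕ, n₀ ≤ n → ∀ H : ℕ,
    n ^ 34 ≤ H → ∀ A : Finset ℕ, A ⊆ Icc 1 (n - 2) → Real.log H ^ r ≤ (A.card : ℝ) →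
    ∀ τ s : Fin r → Bool,
    c * H ^ r / Real.log (Real.log n) ^ r ≤ ((shifts τ s A n H).ncard : ℝ)) ∧
    ∃ c : ℝ, 0 < c ∧ ∃ n₀ : ℕ, ∀ n : ℕ, n₀ ≤ n → ∀ H : ℕ, n ^ 34 ≤ H →
    Real.log H ^ 2 ≤ (((Icc 1 (n - 2)).filter (fun k => (6 * k - 1).Prime)).card : ℝ) →
    c * H ^ 2 / Real.log (Real.log n) ^ 2 ≤
      ({h : Fin 2 → ℕ | (∀ j, 1 ≤ h j ∧ h j ≤ H ∧ Even (h j)) ∧ ∃ k m : ℕ, 1 ≤ k ∧ 1 ≤ m ∧
        k + m = n ∧ (6 * k - 1).Prime ∧ (6 * k - 1 + h 0).Prime ∧ (p m + h 1).Prime}.ncard : ℝ) := by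
  classical
  have key : ∀ r : ℕ, 1 ≤ r → ∃ c : ℝ, 0 < c ∧ ∃ n₀ : ℕ, ∀ n : ℕ, n₀ ≤ n → ∀ H : ℕ,
      n ^ 34 ≤ H → ∀ A : Finset ℕ, A ⊆ Icc 1 (n - 2) → Real.log H ^ r ≤ (A.card : ℝ) →
      ∀ τ s : Fin r → Bool,
      c * H ^ r / Real.log (Real.log n) ^ r ≤ ((shifts τ s A n H).ncard : ℝ) := by
    intro r hr
    obtain ⟨c, hc, n₀, h⟩ := shiftsN r 2 hr (by norm_num)
    obtain ⟨n₁, hn₁⟩ := eventually_atTop.1 (P_le_sq.and (eventually_ge_atTop (n₀ + 6)))
    refine ⟨c, hc, n₁, fun n hn H hH A hA hHn τ s => ?_⟩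
    obtain ⟨g1, g4⟩ := hn₁ n hn
    have hAm : ∀ k ∈ A, 1 ≤ k ∧ k ≤ n - 2 := fun k hk => mem_Icc.1 (hA hk)
    have h6n : 6 * n ≤ n ^ 2 := by
      calc 6 * n ≤ n * n := Nat.mul_le_mul_right _ (by omega)
        _ = n ^ 2 := by ring
    have h1 := h n (by omega) H (by norm_num; exact hH) A
      (fun j k => if τ j = true then 6 * k - 1 else P (n - k)) s (by
      intro j k hk k' hk' hkk
      obtain ⟨hk1, hk2⟩ := hAm k (mem_coe.1 hk)
      obtain ⟨hk1', hk2'⟩ := hAm k' (mem_coe.1 hk')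
      simp only at hkk
      by_cases hτ : τ j = true
      · rw [if_pos hτ, if_pos hτ] at hkk
        omega
      · rw [if_neg hτ, if_neg hτ] at hkk
        have e2 := P_inj (by omega) (by omega) hkk
        omega) (by
      intro j k hk
      obtain ⟨hk1, hk2⟩ := hAm k hk
      by_cases hτ : τ j = true
      · rw [if_pos hτ, Nat.odd_iff]
        constructor
        · omega
        · omega
      · rw [if_neg hτ]
        exact ⟨Nat.odd_iff.2 (P_odd (by omega)).2, (P_mono (by omega)).trans g1⟩) hHn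
    refine h1.trans ?_
    apply Nat.cast_le.2
    apply card_le
    intro h k hk hp
    exact ⟨k, hk, hp⟩
  refine ⟨key, ?_⟩
  obtain ⟨c, hc, n₀, h⟩ := key 2 (by norm_num)
  refine ⟨c, hc, n₀ + 3, fun n hn H hH hHn => ?_⟩
  refine (h n (by omega) H hH _ (filter_subset _ _) hHn ![true, false] ![true, true]).trans ?_
  apply Nat.cast_le.2
  apply Set.ncard_le_ncard
  · rintro h ⟨h1, k, hk, h2⟩
    rw [mem_filter, mem_Icc] at hk
    obtain ⟨⟨hk1, hk2⟩, hk3⟩ := hk
    exact ⟨h1, k, n - k, hk1, by omega, by omega, hk3, h2 0, h2 1⟩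
  · apply (Finset.finite_toSet (Fintype.piFinset (fun _ : Fin 2 => Icc 1 H))).subset
    rintro h ⟨h1, -⟩
    rw [mem_coe, Fintype.mem_piFinset]
    intro i
    rw [mem_Icc]
    exact ⟨(h1 i).1, (h1 i).2.1⟩

end Pool.Agent.Results.MP_ea8352_nt.ShiftedDecompositions
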